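import Pool.Agent.H31.MP.Defs
import Pool.Agent.H21.PI.Mean

/-!
# MP_76b9e7_nt, board mtp_modules: targets, part 4 (the measure, zones, conclusion)
-/

set_option autoImplicit false

open Finset Real ArithmeticFunction
open scoped Nat

namespace Pool.Agent.H31.MP

open Pool.Agent.H30.BV (NX wx WX)
open Pool.Agent.H21.PI (X gam)

/-! ## Part VII: size of the measure -/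

/-- MA. Lower bound for the density. -/
def T_MA : Prop := ∀ K y₀ : ℕ, 2 * K + 2 ≤ y₀ → ∃ c : ℝ, 0 < c ∧ ∀ (z : ℝ) (h : Fin K → ℕ),
  2 ≤ z → c / Real.log z ^ K ≤ V1 y₀ z h ∧ V1 y₀ z h ≤ 1

/-- VV. The two densities. -/
def T_VV : Prop := ∀ (K y₀ : ℕ) (z : ℝ) (h : Fin K → ℕ), 1 ≤ K → 2 * K + 2 ≤ y₀ →
  (y₀ : ℝ) ≤ z →
  (∏ p ∈ Pz y₀ z, (1 - 1 / (p : ℝ))) * ((primorial y₀).totient / primorial y₀) = Me z ∧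
  V2 y₀ z h * Me z = V1 y₀ z h * ((primorial y₀).totient / primorial y₀)

open Classical in
/-- the injective tuples of multiples of `primorial y₀` up to `H` -/
noncomputable def HH (k y₀ : ℕ) (H : ℝ) : Finset (Fin k → ℕ) :=
  (Fintype.piFinset fun _ => (range (⌊H⌋₊ + 1)).filter (fun m => primorial y₀ ∣ m)).filter
    Function.Injective

/-- HC. The number of tuples. -/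
def T_HC : Prop := ∀ k y₀ : ℕ, ∃ c H₀ : ℝ, 0 < c ∧ ∀ H : ℝ, H₀ ≤ H →
  c * H ^ k ≤ ((HH k y₀ H).card : ℝ) ∧ ((HH k y₀ H).card : ℝ) ≤ (2 * H) ^ k

/-- PT. Pointwise bound for the weights. -/
def T_PT : Prop := ∀ (K : ℕ) (δ C : ℝ), 0 < δ → 0 ≤ C → ∃ C' X₀ : ℝ, 0 < C' ∧ ∀ Z : ℝ, X₀ ≤ Z →
  ∀ (Y : ℝ) (h : Fin K → ℕ) (l : (Fin K → ℕ) → ℝ) (n : ℕ), Wt K (Z ^ δ) Y C l →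
  (∀ i, (h i : ℝ) ≤ 20 * Real.log Z) → 1 ≤ n → n ≤ NX Z → |Lam (Z ^ δ) Y l h n| ≤ C'

open Classical in
/-- the number of the integers in `[n, n + log Z]` without prime factors up to `Z ^ δ` -/
noncomputable def UU (Z δ : ℝ) (n : ℕ) : ℕ :=
  ((Icc n (n + ⌊Real.log Z⌋₊)).filter fun m => ∀ p : ℕ, p.Prime → (p : ℝ) ≤ Z ^ δ → ¬ p ∣ m).card

/-- MO. The moments of the number of rough integers. -/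
def T_MO : Prop := ∀ (r : ℕ) (δ : ℝ), 0 < δ → δ ≤ 1 → ∃ C Z₀ : ℝ, 0 < C ∧ ∀ Z : ℝ, Z₀ ≤ Z →
  ∑ n ∈ Icc 1 (NX Z), (UU Z δ n : ℝ) ^ r ≤ C * Z

/-- HU. The sum over the tuples. -/
def T_HU : Prop := ∀ (k y₀ : ℕ) (Z δ κ : ℝ) (n : ℕ), 1 ≤ Real.log Z → κ ≤ 1 → 1 ≤ y₀ →
  n ∈ Om Z y₀ →
  (((HH k y₀ (κ * Real.log Z)).filter (fun h => n ∈ Omr Z y₀ (Z ^ δ) h)).card : ℝ) ≤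
    (UU Z δ n : ℝ) ^ k

/-! ## Part VIII: the sums for one tuple -/

/-- the weight of the primes -/
noncomputable def wp (Z : ℝ) (m : ℕ) : ℝ := if m.Prime then wx Z m / Real.log Z else 0

/-- indicator of the primes -/
noncomputable def ip (m : ℕ) : ℝ := if m.Prime then 1 else 0

/-- `n + h i` prime -/
noncomputable def S2 {k : ℕ} (Z : ℝ) (y₀ : ℕ) (z Y : ℝ) (l : (Fin k → ℕ) → ℝ) (h : Fin k → ℕ)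
    (i : Fin k) : ℝ :=
  ∑ n ∈ Omr Z y₀ z h, wp Z (n + h i) * Lam z Y l h n ^ 2

/-- `n + h i` and `n + e` prime -/
noncomputable def S3 {k : ℕ} (Z : ℝ) (y₀ : ℕ) (z Y : ℝ) (l : (Fin k → ℕ) → ℝ) (h : Fin k → ℕ)
    (i : Fin k) (e : ℕ) : ℝ :=
  ∑ n ∈ Omr Z y₀ z h, wp Z (n + h i) * ip (n + e) * Lam z Y l h n ^ 2

/-- `n + h i`, `n + e` and `n + e'` prime -/
noncomputable def S4 {k : ℕ} (Z : ℝ) (y₀ : ℕ) (z Y : ℝ) (l : (Fin k → ℕ) → ℝ) (h : Fin k → ℕ)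
    (i : Fin k) (e e' : ℕ) : ℝ :=
  ∑ n ∈ Omr Z y₀ z h, wp Z (n + h i) * (ip (n + e) * ip (n + e')) * Lam z Y l h n ^ 2

/-- the main term for the primes -/
noncomputable def MM {k : ℕ} (Z : ℝ) (y₀ : ℕ) (z Y : ℝ) (l : (Fin k → ℕ) → ℝ) (h : Fin k → ℕ)
    (i : Fin k) : ℝ :=
  WX Z / ((primorial y₀).totient * Real.log Z) * V2 y₀ z h * QF z Y (res i l)

/-- W2. One prime. -/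
def T_W2 : Prop := ∀ (k : ℕ) (η : ℝ), 1 ≤ k → 0 < η → ∃ b : ℕ, ∀ (y₀ A : ℕ) (δ C : ℝ),
  2 * k + 6 ≤ y₀ → 0 < δ → δ * (4 * b + 6) ≤ 1 / 8 → 0 ≤ C → ∃ X₀ : ℝ, ∀ Z : ℝ, X₀ ≤ Z →
  ∀ (Y : ℝ) (h : Fin k → ℕ) (i : Fin k) (l : (Fin k → ℕ) → ℝ), Function.Injective h →
  (∀ j, (h j : ℝ) ≤ 10 * Real.log Z) → (∀ j, primorial y₀ ∣ h j) → 1 ≤ Y →
  Y ≤ Z ^ (1 / 8 : ℝ) → Wt k (Z ^ δ) Y C l →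
    (1 - η) * MM Z y₀ (Z ^ δ) Y l h i - Z / Real.log Z ^ A ≤ S2 Z y₀ (Z ^ δ) Y l h i ∧
    S2 Z y₀ (Z ^ δ) Y l h i ≤ (1 + η) * MM Z y₀ (Z ^ δ) Y l h i + Z / Real.log Z ^ A ∧
    0 ≤ MM Z y₀ (Z ^ δ) Y l h i

/-- W3. Two primes. -/
def T_W3 : Prop := ∀ (k : ℕ) (η κ : ℝ), 1 ≤ k → 0 < η → 0 < κ → κ ≤ 1 / 8 → ∃ b : ℕ,
  ∀ (y₀ A : ℕ) (δ C : ℝ), 2 * k + 6 ≤ y₀ → 0 < δ → δ * (4 * b + 6) ≤ κ / 2 → 0 ≤ C →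
  ∃ X₀ : ℝ, ∀ Z : ℝ, X₀ ≤ Z →
  ∀ (Y : ℝ) (h : Fin k → ℕ) (i : Fin k) (l : (Fin k → ℕ) → ℝ) (e : ℕ), Function.Injective h →
  (∀ j, (h j : ℝ) ≤ 10 * Real.log Z) → (∀ j, primorial y₀ ∣ h j) → 1 ≤ Y →
  Y ≤ Z ^ (κ / 4) → Wt k (Z ^ δ) Y C l → (∀ j, e ≠ h j) → (e : ℝ) ≤ 20 * Real.log Z →
    S3 Z y₀ (Z ^ δ) Y l h i e ≤ (if (1 + e).Coprime (primorial y₀) then
      (1 + η) * (MM Z y₀ (Z ^ δ) Y l h i * (primorial y₀ / (primorial y₀).totient /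
        ((1 / 4 - κ) * Real.log Z)) * Rp y₀ e h) else 0) + Z / Real.log Z ^ A

/-- W4. Three primes. -/
def T_W4 : Prop := ∀ (k : ℕ) (η : ℝ), 1 ≤ k → 0 < η → ∃ b : ℕ,
  ∀ (y₀ A : ℕ) (δ C : ℝ), 2 * k + 6 ≤ y₀ → 0 < δ → δ * (4 * b + 6) ≤ 1 / 32 → 0 ≤ C →
  ∃ X₀ : ℝ, ∀ Z : ℝ, X₀ ≤ Z →
  ∀ (Y : ℝ) (h : Fin k → ℕ) (i : Fin k) (l : (Fin k → ℕ) → ℝ) (e e' : ℕ),
  Function.Injective h → (∀ j, (h j : ℝ) ≤ 10 * Real.log Z) → (∀ j, primorial y₀ ∣ h j) →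
  1 ≤ Y → Y ≤ Z ^ (1 / 32 : ℝ) → Wt k (Z ^ δ) Y C l → (∀ j, e ≠ h j) → (∀ j, e' ≠ h j) →
  e ≠ e' → (e : ℝ) ≤ 20 * Real.log Z → (e' : ℝ) ≤ 20 * Real.log Z →
    S4 Z y₀ (Z ^ δ) Y l h i e e' ≤ (if (1 + e).Coprime (primorial y₀) ∧
        (1 + e').Coprime (primorial y₀) then
      (1 + η) * (MM Z y₀ (Z ^ δ) Y l h i * (16 * (primorial y₀ / (primorial y₀).totient) /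
        Real.log Z) ^ 2 * (Rp y₀ e h * Rp y₀ e' (Fin.cons e h : Fin (k + 1) → ℕ))) else 0) +
        Z / Real.log Z ^ A

/-- X3. Two primes, sum over the second one. -/
def T_X3 : Prop := ∀ (k : ℕ) (κ : ℝ), 1 ≤ k → 0 < κ → κ ≤ 1 / 8 → ∃ b y₁ : ℕ,
  ∀ (y₀ A : ℕ) (δ C : ℝ), y₁ ≤ y₀ → 0 < δ → δ * (4 * b + 6) ≤ κ / 2 → 0 ≤ C → ∀ t : ℝ, 0 < t →
  ∃ X₀ : ℝ, ∀ Z : ℝ, X₀ ≤ Z →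
  ∀ (Y : ℝ) (h : Fin k → ℕ) (i : Fin k) (l : (Fin k → ℕ) → ℝ) (a m : ℕ), Function.Injective h →
  (∀ j, (h j : ℝ) ≤ κ * Real.log Z) → (∀ j, primorial y₀ ∣ h j) → 1 ≤ Y →
  Y ≤ Z ^ (κ / 4) → Wt k (Z ^ δ) Y C l → κ * Real.log Z < a →
  ((a + m : ℕ) : ℝ) ≤ 10 * Real.log Z → t * Real.log Z ≤ m →
    ∑ e ∈ Ico a (a + m), S3 Z y₀ (Z ^ δ) Y l h i e ≤
      (4 + 80 * κ) * (m / Real.log Z) * MM Z y₀ (Z ^ δ) Y l h i + Z / Real.log Z ^ A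

/-- X4. Three primes, sum over the last two. -/
def T_X4 : Prop := ∀ (k : ℕ) (κ : ℝ), 1 ≤ k → 0 < κ → κ ≤ 1 / 8 → ∃ b y₁ : ℕ,
  ∀ (y₀ A : ℕ) (δ C : ℝ), y₁ ≤ y₀ → 0 < δ → δ * (4 * b + 6) ≤ 1 / 32 → 0 ≤ C → ∀ t : ℝ, 0 < t →
  ∃ X₀ : ℝ, ∀ Z : ℝ, X₀ ≤ Z →
  ∀ (Y : ℝ) (h : Fin k → ℕ) (i : Fin k) (l : (Fin k → ℕ) → ℝ) (a m b' m' : ℕ),
  Function.Injective h → (∀ j, (h j : ℝ) ≤ κ * Real.log Z) → (∀ j, primorial y₀ ∣ h j) →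
  1 ≤ Y → Y ≤ Z ^ (κ / 4) → Wt k (Z ^ δ) Y C l → κ * Real.log Z < a → 1 ≤ b' →
  ((a + m : ℕ) : ℝ) ≤ 10 * Real.log Z → ((b' + m' : ℕ) : ℝ) ≤ 10 * Real.log Z →
  t * Real.log Z ≤ m → t * Real.log Z ≤ m' →
    ∑ e ∈ Ico a (a + m), ∑ s ∈ Ico b' (b' + m'), S4 Z y₀ (Z ^ δ) Y l h i e (e + s) ≤
      280 * (m * m' / Real.log Z ^ 2) * MM Z y₀ (Z ^ δ) Y l h i + Z / Real.log Z ^ A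

/-- the normalization -/
noncomputable def tn {k : ℕ} (Z : ℝ) (y₀ : ℕ) (z Y : ℝ) (l : (Fin k → ℕ) → ℝ)
    (h : Fin k → ℕ) : ℝ :=
  2 * (NX Z / primorial y₀ * V1 y₀ z h * QF z Y l)

/-- CM. Comparison of the main terms. -/
def T_CM : Prop := ∃ c₀ Z₀ : ℝ, 0 < c₀ ∧ ∀ Z : ℝ, Z₀ ≤ Z → ∀ (k y₀ : ℕ) (δ Y M : ℝ)
  (l : (Fin k → ℕ) → ℝ) (h : Fin k → ℕ), 1 ≤ k → 2 * k + 2 ≤ y₀ → (y₀ : ℝ) ≤ Z ^ δ → 0 < δ →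
  δ ≤ 1 → 0 ≤ M → M / δ * QF (Z ^ δ) Y l ≤ ∑ i, QF (Z ^ δ) Y (res i l) →
    c₀ * M * tn Z y₀ (Z ^ δ) Y l h ≤ ∑ i, MM Z y₀ (Z ^ δ) Y l h i

/-- B1. The choice of the weights. -/
def T_B1 : Prop := ∀ M κ : ℝ, 1 ≤ M → 0 < κ → κ ≤ 1 / 8 → ∃ k : ℕ, 1 ≤ k ∧ ∀ b y₁ : ℕ,
  ∃ (y₀ : ℕ) (δ c C : ℝ), y₁ ≤ y₀ ∧ 2 * k + 6 ≤ y₀ ∧ 0 < δ ∧ δ ≤ 1 ∧
  δ * (4 * b + 6) ≤ κ / 4 ∧ 0 < c ∧ 0 < C ∧ ∃ Z₀ : ℝ, ∀ Z : ℝ, Z₀ ≤ Z →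
  ∃ l : (Fin k → ℕ) → ℝ, Wt k (Z ^ δ) (Z ^ (κ / 4)) C l ∧ ∀ h ∈ HH k y₀ (κ * Real.log Z),
    (∀ n ∈ Icc 1 (NX Z), |Lam (Z ^ δ) (Z ^ (κ / 4)) l h n| ≤ C) ∧
    c * Z / Real.log Z ^ k ≤ tn Z y₀ (Z ^ δ) (Z ^ (κ / 4)) l h ∧
    ∑ n ∈ Omr Z y₀ (Z ^ δ) h, Lam (Z ^ δ) (Z ^ (κ / 4)) l h n ^ 2 ≤
      tn Z y₀ (Z ^ δ) (Z ^ (κ / 4)) l h ∧
    M * tn Z y₀ (Z ^ δ) (Z ^ (κ / 4)) l h ≤ ∑ i, MM Z y₀ (Z ^ δ) (Z ^ (κ / 4)) l h i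

/-- BA. The base: one tuple, all inequalities. -/
def T_BA : Prop := ∀ M κ : ℝ, 1 ≤ M → 0 < κ → κ ≤ 1 / 8 → ∃ (k y₀ : ℕ) (δ c C : ℝ), 1 ≤ k ∧
  1 ≤ y₀ ∧ 0 < δ ∧ δ ≤ 1 ∧ 0 < c ∧ 0 < C ∧ ∀ t : ℝ, 0 < t → ∃ Z₀ : ℝ, ∀ Z : ℝ, Z₀ ≤ Z →
  ∃ l : (Fin k → ℕ) → ℝ, ∀ h ∈ HH k y₀ (κ * Real.log Z),
    (∀ n ∈ Icc 1 (NX Z), |Lam (Z ^ δ) (Z ^ (κ / 4)) l h n| ≤ C) ∧
    c * Z / Real.log Z ^ k ≤ tn Z y₀ (Z ^ δ) (Z ^ (κ / 4)) l h ∧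
    ∑ n ∈ Omr Z y₀ (Z ^ δ) h, Lam (Z ^ δ) (Z ^ (κ / 4)) l h n ^ 2 ≤
      tn Z y₀ (Z ^ δ) (Z ^ (κ / 4)) l h ∧
    M * tn Z y₀ (Z ^ δ) (Z ^ (κ / 4)) l h ≤ ∑ i, S2 Z y₀ (Z ^ δ) (Z ^ (κ / 4)) l h i ∧
    (∀ a m : ℕ, κ * Real.log Z < a → ((a + m : ℕ) : ℝ) ≤ 10 * Real.log Z →
      t * Real.log Z ≤ m →
      ∑ e ∈ Ico a (a + m), ∑ i, S3 Z y₀ (Z ^ δ) (Z ^ (κ / 4)) l h i e ≤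
        (4 + 100 * κ) * (m / Real.log Z) * ∑ i, S2 Z y₀ (Z ^ δ) (Z ^ (κ / 4)) l h i) ∧
    (∀ a m b m' : ℕ, κ * Real.log Z < a → 1 ≤ b → ((a + m : ℕ) : ℝ) ≤ 10 * Real.log Z →
      ((b + m' : ℕ) : ℝ) ≤ 10 * Real.log Z → t * Real.log Z ≤ m → t * Real.log Z ≤ m' →
      ∑ e ∈ Ico a (a + m), ∑ s ∈ Ico b (b + m'),
        ∑ i, S4 Z y₀ (Z ^ δ) (Z ^ (κ / 4)) l h i e (e + s) ≤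
        300 * (m * m' / Real.log Z ^ 2) * ∑ i, S2 Z y₀ (Z ^ δ) (Z ^ (κ / 4)) l h i)

/-- the total normalization -/
noncomputable def Tn {k : ℕ} (Z : ℝ) (y₀ : ℕ) (δ κ : ℝ) (l : (Fin k → ℕ) → ℝ) : ℝ :=
  ∑ h ∈ HH k y₀ (κ * Real.log Z), tn Z y₀ (Z ^ δ) (Z ^ (κ / 4)) l h

open Classical in
/-- the measure -/
noncomputable def wm {k : ℕ} (Z : ℝ) (y₀ : ℕ) (δ κ : ℝ) (l : (Fin k → ℕ) → ℝ) (n : ℕ) : ℝ :=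
  (Tn Z y₀ δ κ l)⁻¹ * ∑ h ∈ HH k y₀ (κ * Real.log Z),
    if n ∈ Omr Z y₀ (Z ^ δ) h then Lam (Z ^ δ) (Z ^ (κ / 4)) l h n ^ 2 else 0

open Classical in
/-- the measure with the primes -/
noncomputable def vm {k : ℕ} (Z : ℝ) (y₀ : ℕ) (δ κ : ℝ) (l : (Fin k → ℕ) → ℝ) (n : ℕ) : ℝ :=
  (Tn Z y₀ δ κ l)⁻¹ * ∑ h ∈ HH k y₀ (κ * Real.log Z), ∑ i,
    if n ∈ Omr Z y₀ (Z ^ δ) h then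
      wp Z (n + h i) * Lam (Z ^ δ) (Z ^ (κ / 4)) l h n ^ 2 else 0

/-- M6. Small sets have small measure. -/
def T_M6 : Prop := ∀ (k y₀ : ℕ) (δ c C κ : ℝ), 1 ≤ k → 1 ≤ y₀ → 0 < δ → δ ≤ 1 → 0 < c → 0 < C →
  0 < κ → κ ≤ 1 / 8 → ∃ C₃ Z₀ : ℝ, 0 < C₃ ∧ ∀ Z : ℝ, Z₀ ≤ Z → ∀ l : (Fin k → ℕ) → ℝ,
  (∀ h ∈ HH k y₀ (κ * Real.log Z),
    (∀ n ∈ Icc 1 (NX Z), |Lam (Z ^ δ) (Z ^ (κ / 4)) l h n| ≤ C) ∧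
    c * Z / Real.log Z ^ k ≤ tn Z y₀ (Z ^ δ) (Z ^ (κ / 4)) l h) →
  0 < Tn Z y₀ δ κ l ∧
  ∀ B : Finset ℕ, B ⊆ Icc 1 (NX Z) → ∑ n ∈ B, vm Z y₀ δ κ l n ≤ C₃ * √((B.card : ℝ) / Z)

/-- M1. Simple properties of the measure. -/
def T_M1 : Prop := ∀ κ : ℝ, 0 < κ → κ ≤ 1 / 8 → ∃ Z₀ : ℝ, ∀ (Z M δ : ℝ) (k y₀ : ℕ)
  (l : (Fin k → ℕ) → ℝ), Z₀ ≤ Z → 0 < Tn Z y₀ δ κ l →
  (∀ h ∈ HH k y₀ (κ * Real.log Z),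
    ∑ n ∈ Omr Z y₀ (Z ^ δ) h, Lam (Z ^ δ) (Z ^ (κ / 4)) l h n ^ 2 ≤
      tn Z y₀ (Z ^ δ) (Z ^ (κ / 4)) l h ∧
    M * tn Z y₀ (Z ^ δ) (Z ^ (κ / 4)) l h ≤ ∑ i, S2 Z y₀ (Z ^ δ) (Z ^ (κ / 4)) l h i) →
  (∀ n, 0 ≤ wm Z y₀ δ κ l n) ∧ (∀ n, 0 ≤ vm Z y₀ δ κ l n) ∧
  ∑ n ∈ Icc 1 (NX Z), wm Z y₀ δ κ l n ≤ 1 ∧
  (∀ n ∈ Icc 1 (NX Z), vm Z y₀ δ κ l n ≤
    2 * wm Z y₀ δ κ l n * ∑ m ∈ Icc n (n + ⌊κ * Real.log Z⌋₊), ip m) ∧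
  M ≤ ∑ n ∈ Icc 1 (NX Z), vm Z y₀ δ κ l n ∧ (∀ n : ℕ, vm Z y₀ δ κ l n ≠ 0 → Z / 4 ≤ n)

/-- M2. Further primes under the measure. -/
def T_M2 : Prop := ∀ (Z R δ κ : ℝ) (k y₀ : ℕ) (l : (Fin k → ℕ) → ℝ) (J : Finset ℕ)
  (J' : Finset ℕ), 0 < Tn Z y₀ δ κ l →
  ((∀ h ∈ HH k y₀ (κ * Real.log Z),
    ∑ e ∈ J, ∑ i, S3 Z y₀ (Z ^ δ) (Z ^ (κ / 4)) l h i e ≤
      R * ∑ i, S2 Z y₀ (Z ^ δ) (Z ^ (κ / 4)) l h i) →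
    ∑ n ∈ Icc 1 (NX Z), vm Z y₀ δ κ l n * ∑ e ∈ J, ip (n + e) ≤
      R * ∑ n ∈ Icc 1 (NX Z), vm Z y₀ δ κ l n) ∧
  ((∀ h ∈ HH k y₀ (κ * Real.log Z),
    ∑ e ∈ J, ∑ s ∈ J', ∑ i, S4 Z y₀ (Z ^ δ) (Z ^ (κ / 4)) l h i e (e + s) ≤
      R * ∑ i, S2 Z y₀ (Z ^ δ) (Z ^ (κ / 4)) l h i) →
    ∑ n ∈ Icc 1 (NX Z), vm Z y₀ δ κ l n * ∑ e ∈ J, ∑ s ∈ J', ip (n + e) * ip (n + (e + s)) ≤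
      R * ∑ n ∈ Icc 1 (NX Z), vm Z y₀ δ κ l n)

/-- MX. The measure. -/
def T_MX : Prop := ∀ M κ : ℝ, 1 ≤ M → 0 < κ → κ ≤ 1 / 8 → ∃ C₃ : ℝ, 0 < C₃ ∧ ∀ t : ℝ, 0 < t →
  ∃ Z₀ : ℝ, ∀ Z : ℝ, Z₀ ≤ Z → ∃ w v : ℕ → ℝ, (∀ n, 0 ≤ w n) ∧ (∀ n, 0 ≤ v n) ∧
    ∑ n ∈ Icc 1 (NX Z), w n ≤ 1 ∧
    (∀ n ∈ Icc 1 (NX Z), v n ≤
      2 * w n * ∑ m ∈ Icc n (n + ⌊κ * Real.log Z⌋₊), ip m) ∧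
    M ≤ ∑ n ∈ Icc 1 (NX Z), v n ∧ (∀ n : ℕ, v n ≠ 0 → Z / 4 ≤ n) ∧
    (∀ a m : ℕ, κ * Real.log Z < a → ((a + m : ℕ) : ℝ) ≤ 10 * Real.log Z →
      t * Real.log Z ≤ m →
      ∑ n ∈ Icc 1 (NX Z), v n * ∑ e ∈ Ico a (a + m), ip (n + e) ≤
        (4 + 100 * κ) * (m / Real.log Z) * ∑ n ∈ Icc 1 (NX Z), v n) ∧
    (∀ a m b m' : ℕ, κ * Real.log Z < a → 1 ≤ b → ((a + m : ℕ) : ℝ) ≤ 10 * Real.log Z →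
      ((b + m' : ℕ) : ℝ) ≤ 10 * Real.log Z → t * Real.log Z ≤ m → t * Real.log Z ≤ m' →
      ∑ n ∈ Icc 1 (NX Z), v n * ∑ e ∈ Ico a (a + m), ∑ s ∈ Ico b (b + m'),
        ip (n + e) * ip (n + (e + s)) ≤
        300 * (m * m' / Real.log Z ^ 2) * ∑ n ∈ Icc 1 (NX Z), v n) ∧
    ∀ B : Finset ℕ, B ⊆ Icc 1 (NX Z) → ∑ n ∈ B, v n ≤ C₃ * √((B.card : ℝ) / Z)

/-! ## Part IX: zones -/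

/-- ZP. Pairs of primes. -/
def T_ZP : Prop := ∃ C : ℝ, 0 < C ∧ ∀ τ : ℝ, 0 < τ → τ ≤ 1 → ∃ n₀ : ℕ, ∀ n : ℕ, n₀ ≤ n →
  ∀ a : ℕ, 1 ≤ a → (a : ℝ) ≤ 3 * Real.log n →
    ∑ s ∈ Icc a (a + ⌊τ * Real.log n⌋₊), ∑ p ∈ range (2 * n + 1), ip p * ip (p + s) ≤
      C * √τ * n / Real.log n

/-- the count changes from `k` to `k + 1` -/
def Ev (k : ℕ) : Prop := k.Prime ∨ (k + 2 + ⌊Real.log (k : ℝ)⌋₊).Prime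

/-- ZE. Where no two changes are close. -/
def T_ZE : Prop := ∀ (j k T R L : ℕ), 1 ≤ T → T ≤ k → (∀ m ∈ Icc (k - T) (k + R + T + 1),
    ⌊Real.log (m : ℝ)⌋₊ = L) →
  (∀ m ∈ Icc (k - T) (k + R + T), ∀ m' ∈ Icc (k - T) (k + R + T), m < m' → m' ≤ m + T →
    ¬ (Ev m ∧ Ev m')) →
  ((∃ m ∈ Icc k (k + R), X m = j) →
    T / 2 ≤ ((Icc (k - T) (k + R + T)).filter (fun m => X m = j)).card) ∧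
  ((∀ m ∈ Icc k (k + R), X m ≠ j) →
    (∀ m ∈ Icc k (k + R), X m < j) ∨ ∀ m ∈ Icc k (k + R), j < X m)

open Classical in
/-- ZC. Close changes. -/
def T_ZC : Prop := ∃ C : ℝ, 0 < C ∧ ∀ τ ε : ℝ, 0 < τ → τ ≤ 1 → 0 < ε → ∃ n₀ : ℕ, ∀ n : ℕ,
  n₀ ≤ n → ((((range (2 * n)).filter (fun m : ℕ => ε * n ≤ (m : ℝ) ∧ (m : ℝ) ≤ 3 / 2 * n ∧
    ∃ m' : ℕ, m < m' ∧ m' ≤ m + ⌊τ * Real.log n⌋₊ ∧ Ev m ∧ Ev m' ∧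
      ⌊Real.log (m : ℝ)⌋₊ = ⌊Real.log (m' : ℝ)⌋₊)).card : ℕ) : ℝ) ≤ C * √τ * n / Real.log n

/-- ZO. The zones. -/
def T_ZO : Prop := ∀ (j : ℕ) (ε : ℝ), 0 < ε → ∃ c : ℝ, 0 < c ∧ ∃ n₀ : ℕ, ∀ n : ℕ, n₀ ≤ n →
  gam j n < c → ∃ B : Finset ℕ, B ⊆ Icc 1 n ∧ (B.card : ℝ) ≤ ε * n ∧ ∀ k ∈ Icc 1 n, k ∉ B →
    (∀ m : ℕ, k ≤ m → (m : ℝ) ≤ k + 12 * Real.log n → X m < j) ∨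
    (∀ m : ℕ, k ≤ m → (m : ℝ) ≤ k + 12 * Real.log n → j < X m)

/-- EN. Under the hypothesis that `gam j` has the lower limit zero the measure is concentrated on
the dense zones. -/
def T_EN : Prop := ∀ j : ℕ, 1 ≤ j →
  (∀ c : ℝ, 0 < c → ∀ n₀ : ℕ, ∃ n : ℕ, n₀ ≤ n ∧ gam j n < c) →
  ∀ κ t Z₀ : ℝ, 0 < κ → κ ≤ 1 / 8 → 0 < t → ∃ Z : ℝ, Z₀ ≤ Z ∧ ∃ (v : ℕ → ℝ) (D : Finset ℕ),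
    D ⊆ Icc 1 (NX Z) ∧ (∀ n, 0 ≤ v n) ∧ 0 < ∑ n ∈ Icc 1 (NX Z), v n ∧
    (1 - κ) * ∑ n ∈ Icc 1 (NX Z), v n ≤ ∑ n ∈ D, v n ∧ (∀ n ∈ D, Z / 4 ≤ n) ∧
    (∀ n ∈ D, ∀ m : ℕ, n ≤ m → (m : ℝ) ≤ n + 10 * Real.log Z → j < X m) ∧
    (∀ a m : ℕ, κ * Real.log Z < a → ((a + m : ℕ) : ℝ) ≤ 10 * Real.log Z →
      t * Real.log Z ≤ m →
      ∑ n ∈ Icc 1 (NX Z), v n * ∑ e ∈ Ico a (a + m), ip (n + e) ≤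
        (4 + 100 * κ) * (m / Real.log Z) * ∑ n ∈ Icc 1 (NX Z), v n) ∧
    (∀ a m b m' : ℕ, κ * Real.log Z < a → 1 ≤ b → ((a + m : ℕ) : ℝ) ≤ 10 * Real.log Z →
      ((b + m' : ℕ) : ℝ) ≤ 10 * Real.log Z → t * Real.log Z ≤ m → t * Real.log Z ≤ m' →
      ∑ n ∈ Icc 1 (NX Z), v n * ∑ e ∈ Ico a (a + m), ∑ s ∈ Ico b (b + m'),
        ip (n + e) * ip (n + (e + s)) ≤
        300 * (m * m' / Real.log Z ^ 2) * ∑ n ∈ Icc 1 (NX Z), v n)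

/-- E4. The case `j ≥ 4`. -/
def T_E4 : Prop := ∀ j : ℕ, 4 ≤ j → ¬ (∀ c : ℝ, 0 < c → ∀ n₀ : ℕ, ∃ n : ℕ, n₀ ≤ n ∧ gam j n < c)

/-- E3. The case `j = 3`. -/
def T_E3 : Prop := ¬ (∀ c : ℝ, 0 < c → ∀ n₀ : ℕ, ∃ n : ℕ, n₀ ≤ n ∧ gam 3 n < c)

/-- FI. The theorem. -/
def T_FI : Prop := ∀ j : ℕ, 3 ≤ j → ∃ c : ℝ, 0 < c ∧ ∃ n₀ : ℕ, ∀ n : ℕ, n₀ ≤ n → c ≤ gam j n

end Pool.Agent.H31.MP
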