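import Pool.Agent.H84.BV.LS
import Pool.Agent.H60.BV.GS
import Pool.Agent.H4.BV.T1
import Pool.Agent.H4.BV.T2
import Pool.Agent.H67.AG.SWL
import Pool.Agent.H3.BV.SB
import Pool.Agent.H17.BV.S1
import Pool.Agent.H58.BV.PM
import Pool.Agent.H56.BV.CL
import Pool.Agent.H19.BV.LV
import Pool.Agent.H62.BV.LJ
import Pool.Agent.H67.BV.WM
import Pool.Agent.H24.BV.BU
import Pool.Agent.H29.BV.BL
import Pool.Agent.H29.BV.XP
import Pool.Agent.H34.BV.PW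
import Pool.Agent.H17.BV.TE
import Pool.Agent.H56.BV.YV
import Pool.Agent.H67.BV.ES
import Pool.Agent.H1.MTP.NC
import Pool.Agent.H1.MTP.QC
import Pool.Agent.H11.MTP.MR
import Pool.Agent.H12.MTP.CH
import Pool.Agent.H18.MTP.ZC
import Pool.Agent.H18.MTP.ZO
import Pool.Agent.H18.MTP.ZP
import Pool.Agent.H20.MP.SA
import Pool.Agent.H20.MP.W2
import Pool.Agent.H23.MTP.BA
import Pool.Agent.H23.MTP.IV
import Pool.Agent.H27.MTP.GL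
import Pool.Agent.H27.MTP.GU
import Pool.Agent.H27.MTP.LCD
import Pool.Agent.H31.MTP.E3
import Pool.Agent.H31.MTP.E4
import Pool.Agent.H31.MTP.FI
import Pool.Agent.H31.MTP.M1
import Pool.Agent.H31.MTP.M2
import Pool.Agent.H32.MTP.BK
import Pool.Agent.H32.MTP.DVK
import Pool.Agent.H32.MTP.TR
import Pool.Agent.H35.MTP.QO
import Pool.Agent.H42.MTP.MH
import Pool.Agent.H42.MTP.PV
import Pool.Agent.H45.MP.DG
import Pool.Agent.H45.MP.HC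
import Pool.Agent.H45.MP.MA
import Pool.Agent.H49.MTP.B1
import Pool.Agent.H5.MTP.IU
import Pool.Agent.H5.MTP.PU
import Pool.Agent.H57.MTP.ML
import Pool.Agent.H57.MTP.TE
import Pool.Agent.H57.MTP.VR
import Pool.Agent.H57.MTP.VV
import Pool.Agent.H57.MTP.X3
import Pool.Agent.H59.MTP.INT
import Pool.Agent.H59.MTP.PRI
import Pool.Agent.H67.MTP.CM
import Pool.Agent.H67.MTP.LB
import Pool.Agent.H67.MTP.RH
import Pool.Agent.H7.MTP.MO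
import Pool.Agent.H70.MTP.EN
import Pool.Agent.H70.MTP.X4
import Pool.Agent.H72.MTP.BZ
import Pool.Agent.H72.MTP.LE
import Pool.Agent.H72.MTP.SD
import Pool.Agent.H75.MTP.DH
import Pool.Agent.H75.MTP.SH
import Pool.Agent.H78.MTP.IE
import Pool.Agent.H78.MTP.PB
import Pool.Agent.H79.MP.BVO
import Pool.Agent.H79.MP.MX
import Pool.Agent.H79.MP.QK
import Pool.Agent.H88.MTP.M6
import Pool.Agent.H89.MP.ZE
import Pool.Agent.H92.MTP.PE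
import Pool.Agent.H92.MTP.W3
import Pool.Agent.H92.MTP.W4
import Pool.Agent.H94.MTP.SQ

/-!
# MP_76b9e7_nt, board mtp_modules: assembly
-/

set_option autoImplicit false

namespace Pool.Agent.H31.MP.All

open Pool.Agent.H31.MP

theorem bLS : Pool.Agent.H30.BV.T_LS := Pool.Agent.H84.BV.ls Pool.Agent.H60.BV.gs
theorem bS1 : Pool.Agent.H30.BV.T_S1 := Pool.Agent.H17.BV.S1.pf_S1 Pool.Agent.H58.BV.pm
theorem bCL : Pool.Agent.H30.BV.T_CL := Pool.Agent.H56.BV.cl Pool.Agent.H58.BV.pm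
theorem bYV : Pool.Agent.H30.BV.T_YV := Pool.Agent.H56.BV.yv Pool.Agent.H34.BV.pw
theorem bBL : Pool.Agent.H30.BV.T_BL := Pool.Agent.H29.BV.bl Pool.Agent.H34.BV.pw
  Pool.Agent.H17.BV.TE.pf_TE Pool.Agent.H29.BV.xp bYV Pool.Agent.H67.BV.pf_ES
theorem bBU : Pool.Agent.H30.BV.T_BU := Pool.Agent.H24.BV.bu Pool.Agent.H34.BV.pw
  Pool.Agent.H29.BV.xp bYV Pool.Agent.H67.BV.pf_ES

theorem tPV : T_PV := Pool.Agent.H42.MTP.pf_PV
theorem tMH : T_MH := Pool.Agent.H42.MTP.pf_MH tPV bLS Pool.Agent.H4.BV.t2 Pool.Agent.H4.BV.t1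
theorem tDH : T_DH := Pool.Agent.H75.MTP.pf_DH tMH
theorem tSH : T_SH := Pool.Agent.H75.MTP.pf_SH Pool.Agent.H67.AG.SWL.sw Pool.Agent.H3.BV.sb
theorem tDVK : T_DVK := Pool.Agent.H32.MTP.pf_DVK
theorem tBVO : T_BVO := Pool.Agent.H79.MP.pf_BVO tDH tSH bS1 tDVK
theorem tTR : T_TR := Pool.Agent.H32.MTP.pf_TR bCL
theorem tBK : T_BK := Pool.Agent.H32.MTP.pf_BK tBVO tTR tDVK
theorem tINT : T_INT := Pool.Agent.H59.MTP.pf_INT
theorem tPRI : T_PRI := Pool.Agent.H59.MTP.pf_PRI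
theorem tSQ : T_SQ := Pool.Agent.H94.MTP.pf_SQ
theorem tLE : T_LE := Pool.Agent.H72.MTP.pf_LE
theorem tNC : T_NC := Pool.Agent.H1.MTP.pf_NC
theorem tMR : T_MR := Pool.Agent.H11.MTP.pf_MR
theorem tQO : T_QO := Pool.Agent.H35.MTP.pf_QO tMR
theorem tQC : T_QC := Pool.Agent.H1.MTP.pf_QC tQO
theorem tBZ : T_BZ := Pool.Agent.H72.MTP.pf_BZ
theorem tQK : T_QK := Pool.Agent.H79.MP.pf_QK tBZ Pool.Agent.H19.BV.lv_mod Pool.Agent.H62.BV.lj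
theorem tSD : T_SD := Pool.Agent.H72.MTP.pf_SD Pool.Agent.H19.BV.lv_mod tMR
theorem tIE : T_IE := Pool.Agent.H78.MTP.pf_IE tINT tSQ tLE tNC tQC tSD tDVK
theorem tPE : T_PE := Pool.Agent.H92.MTP.pf_PE tPRI tSQ tLE tNC tQC tSD tBK
  Pool.Agent.H67.BV.pf_WM
theorem tDG : T_DG := Pool.Agent.H45.MP.pf_DG
theorem tIU : T_IU := Pool.Agent.H5.MTP.pf_IU tIE bBU tQK tSD tDG
theorem tPU : T_PU := Pool.Agent.H5.MTP.pf_PU tPE bBL bBU tQK tSD tDG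
theorem tIV : T_IV := Pool.Agent.H23.MTP.pf_IV
theorem tQY : T_QY := Pool.Agent.H45.MP.pf_QY tDG tIV
theorem tLB : T_LB := Pool.Agent.H67.MTP.pf_LB tQO
theorem tGL : T_GL := Pool.Agent.H27.MTP.GL.pf_GL
theorem tGU : T_GU := Pool.Agent.H27.MTP.GU.pf_GU tMR
theorem tPB : T_PB := Pool.Agent.H78.MTP.pf_PB
theorem tLC : T_LC := Pool.Agent.H27.MTP.pf_LC
theorem tLD : T_LD := Pool.Agent.H27.MTP.pf_LD
theorem tCH : T_CH := Pool.Agent.H12.MTP.pf_CH tLC tLD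
theorem tML : T_ML := Pool.Agent.H57.MTP.pf_ML tCH tPB tQY tLB tGL tGU tMR
theorem tRH : T_RH := Pool.Agent.H67.MTP.pf_RH tGL
theorem tTE : T_TE := Pool.Agent.H57.MTP.pf_TE
theorem tVR : T_VR := Pool.Agent.H57.MTP.pf_VR
theorem tSA : T_SA := Pool.Agent.H20.MP.pf_SA tDVK
theorem tMA : T_MA := Pool.Agent.H45.MP.pf_MA tMR
theorem tVV : T_VV := Pool.Agent.H57.MTP.pf_VV
theorem tHC : T_HC := Pool.Agent.H45.MP.pf_HC
theorem tPT : T_PT := Pool.Agent.H45.MP.pf_PT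
theorem tMO : T_MO := Pool.Agent.H7.MTP.pf_MO
theorem tHU : T_HU := Pool.Agent.H45.MP.pf_HU
theorem tW2 : T_W2 := Pool.Agent.H20.MP.pf_W2 tPU tPT tDG
theorem tW3 : T_W3 := Pool.Agent.H92.MTP.pf_W3 tPU tRH tTE tVR tVV tDG
theorem tW4 : T_W4 := Pool.Agent.H92.MTP.pf_W4 tPU tRH tTE tVR tVV tDG
theorem tX3 : T_X3 := Pool.Agent.H57.MTP.pf_X3 tW3 tSA tDG
theorem tX4 : T_X4 := Pool.Agent.H70.MTP.pf_X4 tW4 tSA tDG
theorem tCM : T_CM := Pool.Agent.H67.MTP.pf_CM tVV tMR Pool.Agent.H67.BV.pf_WM tDG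
theorem tB1 : T_B1 := Pool.Agent.H49.MTP.pf_B1 tML tIU tPT tMA tCM
theorem tBA : T_BA := Pool.Agent.H23.MTP.pf_BA tB1 tW2 tX3 tX4
theorem tM6 : T_M6 := Pool.Agent.H88.MTP.pf_M6 tMO tHU tHC
theorem tM1 : T_M1 := Pool.Agent.H31.MTP.pf_M1
theorem tM2 : T_M2 := Pool.Agent.H31.MTP.pf_M2
theorem tMX : T_MX := Pool.Agent.H79.MP.pf_MX tBA tM6 tM1 tM2
theorem tZP : T_ZP := Pool.Agent.H18.MTP.pf_ZP
theorem tZC : T_ZC := Pool.Agent.H18.MTP.pf_ZC tZP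
theorem tZE : T_ZE := Pool.Agent.H89.MP.pf_ZE
theorem tZO : T_ZO := Pool.Agent.H18.MTP.pf_ZO tZC tZE
theorem tEN : T_EN := Pool.Agent.H70.MTP.pf_EN tMX tZO
theorem tE4 : T_E4 := Pool.Agent.H31.MTP.pf_E4 tEN
theorem tE3 : T_E3 := Pool.Agent.H31.MTP.pf_E3 tEN
theorem tFI : T_FI := Pool.Agent.H31.MTP.pf_FI tE4 tE3

end Pool.Agent.H31.MP.All
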