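import Pool.Agent.H31.MP.Defs

/-!
# MP_76b9e7_nt, board mtp_modules: targets, part 2 (counting, sieve)
-/

set_option autoImplicit false

open Finset Real ArithmeticFunction
open scoped Nat

namespace Pool.Agent.H31.MP

open Pool.Agent.H30.BV (NX wx WX Sf As Er Sad qj PZ lv nl)

/-! ## Part II: counting in residue classes -/

/-- INT. The integers. -/
def T_INT : Prop := ∀ (K : ℕ) (h : Fin K → ℕ) (W N : ℕ) (s : Finset ℕ) (m : Fin K → ℕ), 1 ≤ W →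
  (∀ p ∈ s, p.Prime ∧ ¬ p ∣ W) → (∀ i, 1 ≤ m i ∧ (m i).Coprime W ∧ ∀ p ∈ s, ¬ p ∣ m i) →
  (∀ i j, i ≠ j → (m i).Coprime (m j)) →
    |(open Classical in (((Icc 1 N).filter (fun n => n ≡ 1 [MOD W] ∧ (∀ p ∈ s, dvh h p n) ∧
      ∀ i, m i ∣ n + h i)).card : ℝ)) -
      N / (W * ∏ i, (m i : ℝ)) * ∏ p ∈ s, (nu h p : ℝ) / p| ≤ (K : ℝ) ^ s.card

/-- PRI. The primes. -/
def T_PRI : Prop := ∀ (K : ℕ) (h : Fin K → ℕ) (i₀ : Fin K) (W : ℕ) (X : ℝ) (s : Finset ℕ)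
  (m : Fin K → ℕ), 100 ≤ X → 1 ≤ W → (∀ p ∈ s, p.Prime ∧ ¬ p ∣ W) →
  (∀ i, 1 ≤ m i ∧ (m i).Coprime W ∧ ∀ p ∈ s, ¬ p ∣ m i) →
  (∀ i j, i ≠ j → (m i).Coprime (m j)) → m i₀ = 1 → W ∣ h i₀ →
  (∀ j, j ≠ i₀ → (m j).Coprime ((h i₀ : ℤ) - h j).natAbs) → (h i₀ : ℝ) ≤ X / 20 →
    |(open Classical in ∑ n ∈ (Icc 1 (NX X)).filter (fun n => n ≡ 1 [MOD W] ∧
      (∀ p ∈ s, dvh h p n) ∧ ∀ i, m i ∣ n + h i), wx X (n + h i₀)) -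
      WX X / ((W.totient : ℝ) * ∏ i, ((m i).totient : ℝ)) *
        ∏ p ∈ s, ((nu h p : ℝ) - 1) / ((p : ℝ) - 1)| ≤
      ((K : ℝ) + 1) ^ s.card * (EQ X (W * (∏ p ∈ s, p) * ∏ i, m i) + 2 * Real.log X)

open Classical in
/-- SQ. The sum over the moduli. -/
def T_SQ : Prop := ∀ (K W : ℕ) (z Y y C : ℝ) (l : (Fin K → ℕ) → ℝ) (F : ℕ → ℝ)
  (S : Finset (Finset ℕ)), 1 ≤ K → 1 ≤ W → 0 ≤ C → 0 ≤ Y → 0 ≤ y → Wt K z Y C l → (∀ q, 0 ≤ F q) →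
  (∀ s ∈ S, (∀ p ∈ s, p.Prime ∧ (p : ℝ) ≤ z) ∧ ((∏ p ∈ s, p : ℕ) : ℝ) ≤ y) →
    ∑ s ∈ S, ∑ d ∈ Bx K z Y, ∑ e ∈ Bx K z Y, (if Pco d e then |l d| * |l e| *
      (((K : ℝ) + 1) ^ s.card * F (W * (∏ p ∈ s, p) * ∏ i, Nat.lcm (d i) (e i))) else 0) ≤
    C ^ 2 * ∑ q ∈ Icc 1 ⌊y * Y ^ 2⌋₊, (3 * (K : ℝ) * (K + 1)) ^ om q * F (W * q)

/-- LE. Expansion of the square. -/
def T_LE : Prop := ∀ (K : ℕ) (z Y : ℝ) (l : (Fin K → ℕ) → ℝ) (h : Fin K → ℕ) (Ω : Finset ℕ)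
  (f : ℕ → ℝ) (s : Finset ℕ),
  As Ω (fun n => f n * Lam z Y l h n ^ 2) (dvh h) s =
    ∑ d ∈ Bx K z Y, ∑ e ∈ Bx K z Y, l d * l e * (open Classical in
      ∑ n ∈ Ω.filter (fun n => (∀ p ∈ s, dvh h p n) ∧ ∀ i, Nat.lcm (d i) (e i) ∣ n + h i), f n)

/-- NC. Coprimality. -/
def T_NC : Prop := ∀ (K : ℕ) (z Y : ℝ) (h d e : Fin K → ℕ), Function.Injective h →
  (∀ i, (h i : ℝ) ≤ z) → d ∈ Bx K z Y → e ∈ Bx K z Y →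
  (∀ i j, i ≠ j → (Nat.lcm (d i) (e i)).Coprime ((h i : ℤ) - h j).natAbs) ∧
  ((∃ n, ∀ i, Nat.lcm (d i) (e i) ∣ n + h i) → Pco d e) ∧
  ∀ i, 1 ≤ Nat.lcm (d i) (e i) ∧ Squarefree (Nat.lcm (d i) (e i)) ∧
    ∀ p : ℕ, p.Prime → p ∣ Nat.lcm (d i) (e i) → z < (p : ℝ)

/-- QO. Sums in one variable. -/
def T_QO : Prop := ∀ δ : ℝ, 0 < δ → ∃ C : ℝ, 0 < C ∧ ∀ X : ℝ, 2 ≤ X →
  ∑ u ∈ RS (X ^ δ) X, ∑ v ∈ RS (X ^ δ) X, 1 / (Nat.lcm u v : ℝ) ≤ C ∧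
  (∀ p : ℕ, p.Prime → ∑ u ∈ RS (X ^ δ) X, ∑ v ∈ RS (X ^ δ) X,
    (if p ∣ Nat.lcm u v then 1 / (Nat.lcm u v : ℝ) else 0) ≤ C / p) ∧
  (∀ u ∈ RS (X ^ δ) X, (u : ℝ) ≤ C * u.totient) ∧
  ∑ u ∈ RS (X ^ δ) X, 1 / (u.totient : ℝ) ≤ C

open Classical in
/-- QC. The coprimality conditions and the function `φ` in the quadratic form. -/
def T_QC : Prop := ∀ (K : ℕ) (δ C : ℝ), 0 < δ → 0 ≤ C → ∃ C' : ℝ, 0 < C' ∧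
  ∀ (X Y : ℝ) (l : (Fin K → ℕ) → ℝ), 2 ≤ X → Y ≤ X → Wt K (X ^ δ) Y C l →
    |∑ d ∈ Bx K (X ^ δ) Y, ∑ e ∈ Bx K (X ^ δ) Y,
      (if Pco d e then l d * l e / ∏ i, (Nat.lcm (d i) (e i) : ℝ) else 0) -
        QF (X ^ δ) Y l| ≤ C' * X ^ (-δ) ∧
    |∑ d ∈ Bx K (X ^ δ) Y, ∑ e ∈ Bx K (X ^ δ) Y,
      (if Pco d e then l d * l e / ∏ i, ((Nat.lcm (d i) (e i)).totient : ℝ) else 0) -
        QF (X ^ δ) Y l| ≤ C' * X ^ (-δ)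

/-- MR. Mertens: the product of the `1 - 1 / p`. -/
def T_MR : Prop := ∃ c C : ℝ, 0 < c ∧ 0 < C ∧ ∀ x : ℝ, 2 ≤ x →
  c / Real.log x ≤ Me x ∧ Me x ≤ C / Real.log x

/-! ## Part III: the Brun-Hooley sieve of dimension `K` -/

/-- BZ. Choice of the truncation. -/
def T_BZ : Prop := ∀ L v η : ℝ, 0 ≤ L → 0 < v → 0 < η → ∃ b : ℕ, ∀ t : ℕ,
  ∑ j ∈ range t, L ^ (2 * (b + j) + 1) / ((2 * (b + j) + 1)! * v) ≤ η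

/-- QK. The quotients of the levels for densities up to `K / p`. -/
def T_QK : Prop := ∀ (K : ℕ) (η : ℝ), 0 < η → ∃ b : ℕ, ∀ (z : ℝ) (P : Finset ℕ) (g : ℕ → ℝ),
  3 ≤ z → P ⊆ PZ z 2 → (∀ p ∈ P, 0 ≤ g p ∧ g p ≤ K / p ∧ g p ≤ 1 / 2) →
    ∑ j ∈ range (nl z), qj P (lv z) g j (b + j) ≤ η

/-- SD. The admissible sets. -/
def T_SD : Prop := ∀ K : ℕ, ∃ (C : ℝ) (B : ℕ), 0 < C ∧ ∀ (z : ℝ) (P : Finset ℕ) (g : ℕ → ℝ)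
  (b : ℕ), 3 ≤ z → P ⊆ PZ z 2 → (∀ p ∈ P, 0 ≤ g p ∧ g p ≤ K / p) →
    (∀ s ∈ Sad P (lv z) (fun j => b + j) (nl z), ((∏ p ∈ s, p : ℕ) : ℝ) ≤ z ^ (4 * b + 6)) ∧
    ∑ s ∈ Sad P (lv z) (fun j => b + j) (nl z), ∏ p ∈ s, g p ≤ C * Real.log z ^ B ∧
    (∀ p ∈ P, lv z p < nl z) ∧ (nl z : ℝ) ≤ 3 * Real.log z

/-- IE. The error term for the integers. -/
def T_IE : Prop := ∀ (K b y₀ A : ℕ) (δ C : ℝ), 1 ≤ K → 2 * K + 2 ≤ y₀ → 0 < δ →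
  δ * (4 * b + 6) ≤ 1 / 4 → 0 ≤ C → ∃ X₀ : ℝ, ∀ X : ℝ, X₀ ≤ X →
  ∀ (Y : ℝ) (h : Fin K → ℕ) (l : (Fin K → ℕ) → ℝ), Function.Injective h →
  (∀ i, (h i : ℝ) ≤ 20 * Real.log X) → 1 ≤ Y → Y ≤ X ^ (1 / 4 : ℝ) → Wt K (X ^ δ) Y C l →
    Er (Om X y₀) (fun n => 1 * Lam (X ^ δ) Y l h n ^ 2) (dvh h) (fun p => (nu h p : ℝ) / p)
      (NX X / primorial y₀ * QF (X ^ δ) Y l) (Pz y₀ (X ^ δ)) (lv (X ^ δ)) (fun j => b + j)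
      (nl (X ^ δ)) ≤ X / Real.log X ^ A

/-- PE. The error term for the primes. -/
def T_PE : Prop := ∀ (K b y₀ A : ℕ) (δ ε C : ℝ), 1 ≤ K → 2 * K + 2 ≤ y₀ → 0 < δ → 0 < ε →
  δ * (4 * b + 6) ≤ ε / 2 → 0 ≤ C → ∃ X₀ : ℝ, ∀ X : ℝ, X₀ ≤ X →
  ∀ (Y : ℝ) (h : Fin K → ℕ) (i₀ : Fin K) (l : (Fin K → ℕ) → ℝ), Function.Injective h →
  (∀ i, (h i : ℝ) ≤ 20 * Real.log X) → primorial y₀ ∣ h i₀ → 1 ≤ Y →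
  Y ^ 2 ≤ X ^ (1 / 2 - ε) → Wt K (X ^ δ) Y C l → (∀ d, l d ≠ 0 → d i₀ = 1) →
    Er (Om X y₀) (fun n => wx X (n + h i₀) * Lam (X ^ δ) Y l h n ^ 2) (dvh h)
      (fun p => ((nu h p : ℝ) - 1) / ((p : ℝ) - 1))
      (WX X / (primorial y₀).totient * QF (X ^ δ) Y l) (Pz y₀ (X ^ δ)) (lv (X ^ δ))
      (fun j => b + j) (nl (X ^ δ)) ≤ X / Real.log X ^ A

/-- IU. The upper bound for the integers. -/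
def T_IU : Prop := ∀ (K : ℕ) (η : ℝ), 1 ≤ K → 0 < η → ∃ b : ℕ, ∀ (y₀ A : ℕ) (δ C : ℝ),
  2 * K + 2 ≤ y₀ → 0 < δ → δ * (4 * b + 6) ≤ 1 / 4 → 0 ≤ C → ∃ X₀ : ℝ, ∀ X : ℝ, X₀ ≤ X →
  ∀ (Y : ℝ) (h : Fin K → ℕ) (l : (Fin K → ℕ) → ℝ), Function.Injective h →
  (∀ i, (h i : ℝ) ≤ 20 * Real.log X) → 1 ≤ Y → Y ≤ X ^ (1 / 4 : ℝ) → Wt K (X ^ δ) Y C l →
    ∑ n ∈ Omr X y₀ (X ^ δ) h, Lam (X ^ δ) Y l h n ^ 2 ≤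
      (1 + η) * (NX X / primorial y₀ * V1 y₀ (X ^ δ) h * QF (X ^ δ) Y l) + X / Real.log X ^ A

/-- PU. Both bounds for the primes. -/
def T_PU : Prop := ∀ (K : ℕ) (η : ℝ), 1 ≤ K → 0 < η → ∃ b : ℕ, ∀ (y₀ A : ℕ) (δ ε C : ℝ),
  2 * K + 2 ≤ y₀ → 0 < δ → 0 < ε → δ * (4 * b + 6) ≤ ε / 2 → 0 ≤ C → ∃ X₀ : ℝ, ∀ X : ℝ, X₀ ≤ X →
  ∀ (Y : ℝ) (h : Fin K → ℕ) (i₀ : Fin K) (l : (Fin K → ℕ) → ℝ), Function.Injective h →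
  (∀ i, (h i : ℝ) ≤ 20 * Real.log X) → primorial y₀ ∣ h i₀ → 1 ≤ Y →
  Y ^ 2 ≤ X ^ (1 / 2 - ε) → Wt K (X ^ δ) Y C l → (∀ d, l d ≠ 0 → d i₀ = 1) →
    (1 - η) * (WX X / (primorial y₀).totient * V2 y₀ (X ^ δ) h * QF (X ^ δ) Y l) -
      X / Real.log X ^ A ≤
      ∑ n ∈ Omr X y₀ (X ^ δ) h, wx X (n + h i₀) * Lam (X ^ δ) Y l h n ^ 2 ∧
    ∑ n ∈ Omr X y₀ (X ^ δ) h, wx X (n + h i₀) * Lam (X ^ δ) Y l h n ^ 2 ≤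
      (1 + η) * (WX X / (primorial y₀).totient * V2 y₀ (X ^ δ) h * QF (X ^ δ) Y l) +
        X / Real.log X ^ A

end Pool.Agent.H31.MP
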