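import Pool.Agent.H31.MP.Defs

/-!
# MP_76b9e7_nt, board mtp_modules: targets, part 3 (Maynard's weights)
-/

set_option autoImplicit false

open Finset Real ArithmeticFunction
open scoped Nat ArithmeticFunction.Moebius

namespace Pool.Agent.H31.MP

/-! ## Part IV: diagonalization -/

open Classical in
/-- DG. The diagonal form. -/
def T_DG : Prop := ∀ (K : ℕ) (z Y : ℝ) (l : (Fin K → ℕ) → ℝ),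
  QF z Y l = ∑ r ∈ Bx K z Y, (∏ i, ((r i).totient : ℝ)) *
    (∑ d ∈ Bx K z Y, if ∀ i, r i ∣ d i then l d / ∏ i, (d i : ℝ) else 0) ^ 2

open Classical in
/-- the weights `l` with the diagonal variables `y` -/
noncomputable def lw {K : ℕ} (z Y : ℝ) (y : (Fin K → ℕ) → ℝ) (d : Fin K → ℕ) : ℝ :=
  (∏ i, ((μ (d i) : ℤ) : ℝ) * (d i : ℝ)) *
    ∑ r ∈ Bx K z Y, if ∀ i, d i ∣ r i then y r / ∏ i, ((r i).totient : ℝ) else 0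

open Classical in
/-- IV. Möbius inversion. -/
def T_IV : Prop := ∀ (K : ℕ) (z Y : ℝ) (y : (Fin K → ℕ) → ℝ) (r : Fin K → ℕ), r ∈ Bx K z Y →
  (∑ d ∈ Bx K z Y, (if ∀ i, r i ∣ d i then lw z Y y d / ∏ i, (d i : ℝ) else 0) =
    (∏ i, ((μ (r i) : ℤ) : ℝ)) * (y r / ∏ i, ((r i).totient : ℝ))) ∧
  ∀ i₀ : Fin K, ∑ d ∈ Bx K z Y,
    (if ∀ i, r i ∣ d i then res i₀ (lw z Y y) d / ∏ i, (d i : ℝ) else 0) =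
    if r i₀ = 1 then (∏ i, ((μ (r i) : ℤ) : ℝ)) *
      ((∑ a ∈ RS z Y, y (Function.update r i₀ a) / (a.totient : ℝ)) /
        ∏ i, ((r i).totient : ℝ)) else 0

/-- QY. The quadratic forms in the diagonal variables. -/
def T_QY : Prop := ∀ (K : ℕ) (z Y : ℝ) (y : (Fin K → ℕ) → ℝ),
  QF z Y (lw z Y y) = ∑ r ∈ Bx K z Y, y r ^ 2 / ∏ i, ((r i).totient : ℝ) ∧
  ∀ i₀ : Fin K, QF z Y (res i₀ (lw z Y y)) = ∑ r ∈ (Bx K z Y).filter (fun r => r i₀ = 1),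
    (∑ a ∈ RS z Y, y (Function.update r i₀ a) / (a.totient : ℝ)) ^ 2 /
      ∏ i, ((r i).totient : ℝ)

/-- LB. The size of the weights. -/
def T_LB : Prop := ∀ (K : ℕ) (δ : ℝ), 0 < δ → ∃ C : ℝ, 0 < C ∧ ∀ (X Y : ℝ)
  (y : (Fin K → ℕ) → ℝ), 2 ≤ X → Y ≤ X → (∀ r, |y r| ≤ 1) →
  (∀ r, y r ≠ 0 → ((∏ i, r i : ℕ) : ℝ) ≤ Y) → Wt K (X ^ δ) Y C (lw (X ^ δ) Y y)

/-! ## Part V: sums over rough numbers -/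

/-- GL. Lower bound. -/
def T_GL : Prop := ∀ z Y : ℝ, 1 ≤ z → 1 ≤ Y →
  Real.log Y ≤ (Me z)⁻¹ * ∑ a ∈ RS z Y, 1 / (a.totient : ℝ)

/-- GU. Upper bound. -/
def T_GU : Prop := ∃ C : ℝ, 0 < C ∧ ∀ z Y : ℝ, 2 ≤ z → 1 ≤ Y →
  ∑ a ∈ RS z Y, 1 / (a.totient : ℝ) ≤ C * max 1 (Real.log Y / Real.log z)

/-- the product weights, cut off at `∏ r i ≤ Y` -/
noncomputable def yg {K : ℕ} (Y : ℝ) (g : ℕ → ℝ) (r : Fin K → ℕ) : ℝ :=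
  if ((∏ i, r i : ℕ) : ℝ) ≤ Y then ∏ i, g (r i) else 0

/-- PB. The product measure. -/
def T_PB : Prop := ∀ (K : ℕ) (z Y : ℝ) (g : ℕ → ℝ), 1 ≤ K → 1 < Y → (∀ a, 0 ≤ g a) →
  (∀ a : ℕ, Y ^ (1 / 2 : ℝ) < a → g a = 0) →
  (K : ℝ) * ∑ a ∈ RS z Y, Real.log a * g a ^ 2 / (a.totient : ℝ) ≤
    1 / 4 * Real.log Y * ∑ a ∈ RS z Y, g a ^ 2 / (a.totient : ℝ) →
  ∑ r ∈ Bx K z Y, yg Y g r ^ 2 / ∏ i, ((r i).totient : ℝ) ≤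
    (∑ a ∈ RS z Y, g a ^ 2 / (a.totient : ℝ)) ^ K ∧
  ∀ i₀ : Fin K, 1 / 2 * (∑ a ∈ RS z Y, g a / (a.totient : ℝ)) ^ 2 *
      (∑ a ∈ RS z Y, g a ^ 2 / (a.totient : ℝ)) ^ (K - 1) ≤
    ∑ r ∈ (Bx K z Y).filter (fun r => r i₀ = 1),
      (∑ a ∈ RS z Y, yg Y g (Function.update r i₀ a) / (a.totient : ℝ)) ^ 2 /
        ∏ i, ((r i).totient : ℝ)

/-- LC. Sums against the decreasing function `a ↦ 1 / (1 + B log a / log Y)` up to `Y ^ (1/4)`,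
lower bounds. The hypothesis is a bound for the sums of `1 / φ`. -/
def T_LC : Prop := ∀ (c B : ℝ) (z Y : ℝ), 0 < c → 4 ≤ B → 2 ≤ z → 1 < Y →
  (∀ U : ℝ, 1 ≤ U → U ≤ Y → c * Real.log U ≤ Real.log z * ∑ a ∈ RS z U, 1 / (a.totient : ℝ)) →
  c * (Real.log Y / Real.log z) * (Real.log (1 + B / 4) / B) ≤
    ∑ a ∈ RS z (Y ^ (1 / 4 : ℝ)), 1 / (1 + B * (Real.log a / Real.log Y)) / (a.totient : ℝ) ∧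
  c * (Real.log Y / Real.log z) * (1 / (4 * B)) ≤
    ∑ a ∈ RS z (Y ^ (1 / 4 : ℝ)),
      (1 / (1 + B * (Real.log a / Real.log Y))) ^ 2 / (a.totient : ℝ)

/-- LD. The same, upper bounds. -/
def T_LD : Prop := ∀ (C B : ℝ) (z Y : ℝ), 0 < C → 4 ≤ B → 2 ≤ z → 1 < Y →
  B * Real.log z ≤ Real.log Y →
  (∀ U : ℝ, 1 ≤ U → U ≤ Y →
    ∑ a ∈ RS z U, 1 / (a.totient : ℝ) ≤ C * max 1 (Real.log U / Real.log z)) →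
  ∑ a ∈ RS z (Y ^ (1 / 4 : ℝ)), 1 / (1 + B * (Real.log a / Real.log Y)) / (a.totient : ℝ) ≤
    4 * C * (Real.log Y / Real.log z) * ((1 + Real.log (1 + B / 4)) / B) ∧
  ∑ a ∈ RS z (Y ^ (1 / 4 : ℝ)), (1 / (1 + B * (Real.log a / Real.log Y))) ^ 2 /
      (a.totient : ℝ) ≤ 4 * C * (Real.log Y / Real.log z) * (1 / B)

/-- CH. The choice of the function of one variable. -/
def T_CH : Prop := ∀ M c C : ℝ, 0 < M → 0 < c → 0 < C → ∃ (K : ℕ) (θ : ℝ), 1 ≤ K ∧ 0 < θ ∧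
  ∀ z Y : ℝ, 2 ≤ z → 1 < Y → Real.log z ≤ θ * Real.log Y →
  (∀ U : ℝ, 1 ≤ U → U ≤ Y → c * Real.log U ≤ Real.log z * ∑ a ∈ RS z U, 1 / (a.totient : ℝ)) →
  (∀ U : ℝ, 1 ≤ U → U ≤ Y →
    ∑ a ∈ RS z U, 1 / (a.totient : ℝ) ≤ C * max 1 (Real.log U / Real.log z)) →
  ∃ g : ℕ → ℝ, g 1 = 1 ∧ (∀ a, 0 ≤ g a ∧ g a ≤ 1) ∧ (∀ a : ℕ, Y ^ (1 / 2 : ℝ) < a → g a = 0) ∧
    0 < ∑ a ∈ RS z Y, g a ^ 2 / (a.totient : ℝ) ∧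
    (K : ℝ) * ∑ a ∈ RS z Y, Real.log a * g a ^ 2 / (a.totient : ℝ) ≤
      1 / 4 * Real.log Y * ∑ a ∈ RS z Y, g a ^ 2 / (a.totient : ℝ) ∧
    M * (Real.log Y / Real.log z) * ∑ a ∈ RS z Y, g a ^ 2 / (a.totient : ℝ) ≤
      K * (∑ a ∈ RS z Y, g a / (a.totient : ℝ)) ^ 2

/-- ML. Maynard's weights. -/
def T_ML : Prop := ∀ M ϑ : ℝ, 0 < M → 0 < ϑ → ϑ ≤ 1 → ∃ (k : ℕ) (δ₁ : ℝ), 1 ≤ k ∧ 0 < δ₁ ∧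
  ∀ δ : ℝ, 0 < δ → δ ≤ δ₁ → ∃ C X₀ : ℝ, 0 < C ∧ ∀ X : ℝ, X₀ ≤ X →
  ∃ l : (Fin k → ℕ) → ℝ, Wt k (X ^ δ) (X ^ ϑ) C l ∧ 1 ≤ QF (X ^ δ) (X ^ ϑ) l ∧
    M / δ * QF (X ^ δ) (X ^ ϑ) l ≤ ∑ i, QF (X ^ δ) (X ^ ϑ) (res i l)

/-! ## Part VI: one more variable -/

/-- RH. Selberg's weights in one variable. -/
def T_RH : Prop := ∀ z D : ℝ, 1 ≤ z → 1 < D → ∃ ρ : ℕ → ℝ, ρ 1 = 1 ∧ (∀ u, |ρ u| ≤ 1) ∧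
  (∀ u, ρ u ≠ 0 → u ∈ RS z D) ∧ 0 ≤ QF1 z D ρ ∧ Me z * QF1 z D ρ * Real.log D ≤ 1

/-- TE. The new variable. -/
def T_TE : Prop := ∀ (K : ℕ) (z Y D C : ℝ) (ρ : ℕ → ℝ) (l : (Fin K → ℕ) → ℝ), 1 ≤ Y → 1 ≤ D →
  (∀ u, |ρ u| ≤ 1) → (∀ u, ρ u ≠ 0 → u ∈ RS z D) → 0 ≤ C → Wt K z Y C l →
    Wt (K + 1) z (D * Y) C (ten ρ l) ∧
    QF z (D * Y) (ten ρ l) = QF1 z D ρ * QF z Y l ∧
    ∀ (h : Fin K → ℕ) (e n : ℕ), Lam z (D * Y) (ten ρ l) (Fin.cons e h : Fin (K + 1) → ℕ) n =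
      Lam1 z D ρ (n + e) * Lam z Y l h n

/-- VR. The density with the new point. -/
def T_VR : Prop := ∀ (K y₀ : ℕ) (z : ℝ) (h : Fin K → ℕ) (e : ℕ), 1 ≤ K → 2 * K + 2 ≤ y₀ →
  (∀ i, e ≠ h i) → 0 ≤ V2 y₀ z (Fin.cons e h : Fin (K + 1) → ℕ) ∧ 0 < V2 y₀ z h ∧
    V2 y₀ z (Fin.cons e h : Fin (K + 1) → ℕ) ≤
      V2 y₀ z h * (∏ p ∈ Pz y₀ z, (1 - 1 / (p : ℝ))) * Rp y₀ e h

/-- SA. The mean value of the singular factor. -/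
def T_SA : Prop := ∀ (K : ℕ) (η : ℝ), 0 < η → ∃ y₁ : ℕ, ∀ y₀ : ℕ, y₁ ≤ y₀ → ∀ t : ℝ, 0 < t →
  ∃ X₀ : ℝ, ∀ X : ℝ, X₀ ≤ X → ∀ (h : Fin K → ℕ) (a m : ℕ), (∀ i, (h i : ℝ) ≤ 20 * Real.log X) →
  ((a + m : ℕ) : ℝ) ≤ 20 * Real.log X → t * Real.log X ≤ m →
    ∑ e ∈ (Ico a (a + m)).filter (fun e => (1 + e).Coprime (primorial y₀)), Rp y₀ e h ≤
      (1 + η) * ((primorial y₀).totient / primorial y₀) * m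

end Pool.Agent.H31.MP
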