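import Pool.Agent.H31.MP.Targets1
import Pool.Agent.H31.MP.Targets2
import Pool.Agent.H31.MP.Targets3
import Pool.Agent.H31.MP.Targets4

/-!
# MP_76b9e7_nt, board mtp_modules: all targets
-/
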