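import Pool.Agent.H30.BV.Targets
import Mathlib

/-!
# MP_76b9e7_nt: a positive proportion of the intervals contain exactly `j` primes (`j ≥ 3`)

Definitions: squarefree `z`-rough numbers, Maynard weights supported on them, quadratic forms,
the errors in arithmetic progressions.  Board mtp_modules.
-/

set_option autoImplicit false

open Finset Real ArithmeticFunction
open scoped Nat

namespace Pool.Agent.H31.MP

open Pool.Agent.H30.BV (NX wx WX SC Sf)

/-! ## Arithmetic progressions -/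

/-- the maximal error in the reduced residue classes modulo `q` at the scale `X` -/
noncomputable def EQ (X : ℝ) (q : ℕ) : ℝ :=
  ⨆ a : (ZMod q)ˣ, |∑ n ∈ (Icc 1 (NX X)).filter (fun n : ℕ => (n : ZMod q) = a), wx X n -
    WX X / q.totient|

/-- the number of prime factors -/
def om (q : ℕ) : ℕ := q.primeFactors.card

/-! ## Rough numbers -/

/-- squarefree, all prime factors are larger than `z` -/
def Rgh (z : ℝ) (a : ℕ) : Prop := Squarefree a ∧ ∀ p : ℕ, p.Prime → p ∣ a → z < (p : ℝ)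

open Classical in
/-- the squarefree `z`-rough numbers up to `Y` -/
noncomputable def RS (z Y : ℝ) : Finset ℕ := (Icc 1 ⌊Y⌋₊).filter (Rgh z)

/-- the tuples of such numbers -/
noncomputable def Bx (K : ℕ) (z Y : ℝ) : Finset (Fin K → ℕ) := Fintype.piFinset fun _ => RS z Y

/-- the primes `p` with `y₀ < p ≤ z` -/
noncomputable def Pz (y₀ : ℕ) (z : ℝ) : Finset ℕ :=
  (Icc 1 ⌊z⌋₊).filter fun p => p.Prime ∧ y₀ < p

/-- the product of `1 - 1 / p` over the primes `p ≤ z` -/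
noncomputable def Me (z : ℝ) : ℝ := ∏ p ∈ (Icc 1 ⌊z⌋₊).filter Nat.Prime, (1 - 1 / (p : ℝ))

/-! ## Weights -/

/-- weights `l`, bounded by `C`, supported on tuples of squarefree `z`-rough numbers with product
at most `Y` -/
structure Wt (K : ℕ) (z Y C : ℝ) (l : (Fin K → ℕ) → ℝ) : Prop where
  supp : ∀ d, l d ≠ 0 → d ∈ Bx K z Y ∧ ((∏ i, d i : ℕ) : ℝ) ≤ Y
  bd : ∀ d, |l d| ≤ C

open Classical in
/-- the sum of the weights of the tuples `d` with `d i ∣ n + h i` for all `i` -/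
noncomputable def Lam {K : ℕ} (z Y : ℝ) (l : (Fin K → ℕ) → ℝ) (h : Fin K → ℕ) (n : ℕ) : ℝ :=
  ∑ d ∈ Bx K z Y, if ∀ i, d i ∣ n + h i then l d else 0

/-- the quadratic form -/
noncomputable def QF {K : ℕ} (z Y : ℝ) (l : (Fin K → ℕ) → ℝ) : ℝ :=
  ∑ d ∈ Bx K z Y, ∑ e ∈ Bx K z Y, l d * l e / ∏ i, (Nat.lcm (d i) (e i) : ℝ)

/-- the least common multiples of the coordinates are pairwise coprime -/
def Pco {K : ℕ} (d e : Fin K → ℕ) : Prop :=
  ∀ i j, i ≠ j → (Nat.lcm (d i) (e i)).Coprime (Nat.lcm (d j) (e j))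

/-- the restriction of the weights to the tuples with `d i = 1` -/
noncomputable def res {K : ℕ} (i : Fin K) (l : (Fin K → ℕ) → ℝ) (d : Fin K → ℕ) : ℝ :=
  if d i = 1 then l d else 0

/-- weights in one more variable -/
def ten {K : ℕ} (ρ : ℕ → ℝ) (l : (Fin K → ℕ) → ℝ) (d : Fin (K + 1) → ℕ) : ℝ :=
  ρ (d 0) * l fun i => d i.succ

/-- the one-dimensional sum -/
noncomputable def Lam1 (z D : ℝ) (ρ : ℕ → ℝ) (m : ℕ) : ℝ :=
  ∑ u ∈ RS z D, if u ∣ m then ρ u else 0

/-- the one-dimensional quadratic form -/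
noncomputable def QF1 (z D : ℝ) (ρ : ℕ → ℝ) : ℝ :=
  ∑ u ∈ RS z D, ∑ v ∈ RS z D, ρ u * ρ v / (Nat.lcm u v : ℝ)

/-! ## Densities -/

open Classical in
/-- the number of residue classes `a` modulo `p` with `p ∣ ∏ (a + h i)` -/
noncomputable def nu {K : ℕ} (h : Fin K → ℕ) (p : ℕ) : ℕ :=
  ((range p).filter fun a => ∃ i, p ∣ a + h i).card

/-- the density for the integers -/
noncomputable def V1 {K : ℕ} (y₀ : ℕ) (z : ℝ) (h : Fin K → ℕ) : ℝ :=
  ∏ p ∈ Pz y₀ z, (1 - (nu h p : ℝ) / p)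

/-- the density for the primes -/
noncomputable def V2 {K : ℕ} (y₀ : ℕ) (z : ℝ) (h : Fin K → ℕ) : ℝ :=
  ∏ p ∈ Pz y₀ z, (1 - ((nu h p : ℝ) - 1) / ((p : ℝ) - 1))

/-- the integers `n ≡ 1` modulo the product of the primes up to `y₀`, at the scale `X` -/
noncomputable def Om (X : ℝ) (y₀ : ℕ) : Finset ℕ :=
  (Icc 1 (NX X)).filter fun n => n ≡ 1 [MOD primorial y₀]

/-- the prime `p` divides one of the numbers `n + h i` -/
def dvh {K : ℕ} (h : Fin K → ℕ) (p n : ℕ) : Prop := ∃ i, p ∣ n + h i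

open Classical in
/-- the `n ∈ Om` such that the numbers `n + h i` have no prime factor in `(y₀, z]` -/
noncomputable def Omr {K : ℕ} (X : ℝ) (y₀ : ℕ) (z : ℝ) (h : Fin K → ℕ) : Finset ℕ :=
  (Om X y₀).filter fun n => ∀ p ∈ Pz y₀ z, ¬ dvh h p n

/-- the singular factor of a new point `e` -/
noncomputable def Rp {K : ℕ} (y₀ : ℕ) (e : ℕ) (h : Fin K → ℕ) : ℝ :=
  ∏ p ∈ (∏ i, ((e : ℤ) - h i).natAbs).primeFactors.filter (fun p => y₀ < p),
    (1 - 1 / (p : ℝ))⁻¹

end Pool.Agent.H31.MP
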