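import Pool.Agent.H31.MP.Defs
import Pool.Agent.H47.VT.Targets6

/-!
# MP_76b9e7_nt, board mtp_modules: targets, part 1 (Bombieri-Vinogradov of level 1/2)
-/

set_option autoImplicit false

open Finset Real ArithmeticFunction
open scoped Nat

namespace Pool.Agent.H31.MP

open Pool.Agent.H30.BV (NX wx WX SC SP TX cv PC Sf)

/-! ## Part I: Bombieri-Vinogradov -/

/-- PV. Pólya-Vinogradov for primitive characters. -/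
def T_PV : Prop := ∃ C : ℝ, 0 < C ∧ ∀ (q : ℕ) (χ : DirichletCharacter ℂ q), 2 ≤ q →
  χ.IsPrimitive → ∀ M : ℕ, ‖∑ n ∈ range M, cv χ n‖ ≤ C * (√(q : ℝ) * Real.log (2 * q))

/-- MH. The mean value theorem with level `1/2`. -/
def T_MH : Prop := ∃ C : ℝ, 0 < C ∧ ∀ (X : ℝ) (Q : ℕ), 3 ≤ X → 1 ≤ Q → (Q : ℝ) ^ 2 ≤ X →
  ∑ x ∈ PC Q, ‖TX X (cv x.2)‖ ≤ C * Real.log X ^ 4 * (X + Q * X ^ (19 / 20 : ℝ) +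
    (Q : ℝ) ^ 2 * √X + (Q : ℝ) ^ (5 / 2 : ℝ) * X ^ (1 / 5 : ℝ))

/-- DH. Dyadic blocks. -/
def T_DH : Prop := ∃ C : ℝ, 0 < C ∧ ∀ (X : ℝ) (Q₀ D : ℕ), 3 ≤ X → 1 ≤ Q₀ → (D : ℝ) ^ 2 ≤ X →
  ∑ q ∈ Ioc Q₀ D, SP X q / (q.totient : ℝ) ≤
    C * Real.log X ^ 6 * (X / Q₀ + X ^ (19 / 20 : ℝ) + D * √X)

/-- SH. Small conductors. -/
def T_SH : Prop := ∀ A B : ℕ, ∃ X₀ : ℝ, ∀ X : ℝ, X₀ ≤ X → ∀ Q₀ : ℕ,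
  (Q₀ : ℝ) ≤ Real.log X ^ B → ∑ q ∈ Icc 2 Q₀, SP X q / (q.totient : ℝ) ≤ X / Real.log X ^ A

/-- DVK. Sums of `K ^ ω / φ`. -/
def T_DVK : Prop := ∀ K : ℕ, ∃ (C : ℝ) (B : ℕ), 0 < C ∧ ∀ N : ℕ, 2 ≤ N →
  ∑ d ∈ Icc 1 N, (K : ℝ) ^ om d / (d.totient : ℝ) ≤ C * Real.log N ^ B

/-- BVO. The theorem of Bombieri and Vinogradov for the nontrivial characters. -/
def T_BVO : Prop := ∀ (ε : ℝ) (A : ℕ), 0 < ε → ∃ X₀ : ℝ, ∀ X : ℝ, X₀ ≤ X → ∀ D : ℕ,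
  (D : ℝ) ≤ X ^ (1 / 2 - ε) → ∑ d ∈ Icc 1 D, SC X d / (d.totient : ℝ) ≤ X / Real.log X ^ A

/-- TR. Two bounds for one modulus. -/
def T_TR : Prop :=
  (∀ (X : ℝ) (d : ℕ), 3 ≤ X → 1 ≤ d → (d : ℝ) ≤ X → 0 ≤ EQ X d ∧
    EQ X d ≤ (SC X d + 8 * Real.log X ^ 2) / d.totient) ∧
  ∃ C : ℝ, 0 < C ∧ ∀ (X : ℝ) (d : ℕ), 3 ≤ X → 1 ≤ d → (d : ℝ) ≤ X →
    EQ X d ≤ C * X * Real.log X / d.totient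

/-- BK. The theorem of Bombieri and Vinogradov with divisor weights. -/
def T_BK : Prop := ∀ (ε : ℝ) (A K : ℕ), 0 < ε → ∃ X₀ : ℝ, ∀ X : ℝ, X₀ ≤ X → ∀ D : ℕ,
  (D : ℝ) ≤ X ^ (1 / 2 - ε) →
    ∑ d ∈ Icc 1 D, (K : ℝ) ^ om d * (EQ X d + Real.log X ^ 2) ≤ X / Real.log X ^ A

end Pool.Agent.H31.MP
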